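import Mathlib

set_option autoImplicit false
open Finset
open scoped Pointwise

namespace Pool.Agent.TH651.DB

theorem cd_int (I J : Finset ℤ) (hI : I.Nonempty) (hJ : J.Nonempty) :
    I.card + J.card ≤ (I + J).card + 1 := by
  have := cauchy_davenport_add_of_linearOrder_isCancelAdd hI hJ
  omega

/-- the inductive step: add the element `x` with the smallest value -/
theorem add_one (m v : ℝ) (α β H : ℤ → ℝ) (I J I' J' K' : Finset ℤ)
    (hv : 0 ≤ v) (hI : I.Nonempty) (hJ : J.Nonempty)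
    (hI' : I' ⊆ I) (hJ' : J' ⊆ J) (hcard : I'.card + J'.card + 1 = I.card + J.card)
    (ha : ∀ i ∈ I, v ≤ α i) (hb : ∀ j ∈ J, v ≤ β j)
    (hH : ∀ i ∈ I, ∀ j ∈ J, α i * β j ≤ H (i + j))
    (hK' : K' ⊆ I' + J') (hKc : K'.card + 1 = I'.card + J'.card)
    (hsum : ∑ i ∈ I', α i ^ 2 + ∑ j ∈ J', β j ^ 2 ≤ ∑ k ∈ K', H k + m ^ 2)
    (hnew : ∑ i ∈ I, α i ^ 2 + ∑ j ∈ J, β j ^ 2
      = ∑ i ∈ I', α i ^ 2 + ∑ j ∈ J', β j ^ 2 + v ^ 2) :
    ∃ K : Finset ℤ, K ⊆ I + J ∧ K.card + 1 = I.card + J.card ∧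
      ∑ i ∈ I, α i ^ 2 + ∑ j ∈ J, β j ^ 2 ≤ ∑ k ∈ K, H k + m ^ 2 := by
  have hsub : K' ⊆ I + J := hK'.trans (Finset.add_subset_add hI' hJ')
  have hlt : K'.card < (I + J).card := by
    have := cd_int I J hI hJ
    omega
  obtain ⟨k, hk, hkn⟩ := Finset.exists_mem_notMem_of_card_lt_card hlt
  refine ⟨insert k K', ?_, ?_, ?_⟩
  · intro z hz
    rw [Finset.mem_insert] at hz
    rcases hz with rfl | hz
    · exact hk
    · exact hsub hz
  · rw [Finset.card_insert_of_notMem hkn]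
    omega
  · rw [Finset.sum_insert hkn, hnew]
    obtain ⟨i, hi, j, hj, rfl⟩ := Finset.mem_add.mp hk
    have h1 := hH i hi j hj
    have h2 : v ^ 2 ≤ α i * β j := by
      have h3 := ha i hi
      have h4 := hb j hj
      nlinarith
    linarith

theorem merge (m : ℝ) (α β H : ℤ → ℝ) (i0 j0 : ℤ) (hm : 0 ≤ m) (hα : α i0 = m) (hβ : β j0 = m) :
    ∀ (N : ℕ) (I J : Finset ℤ), I.card + J.card = N → i0 ∈ I → j0 ∈ J →
      (∀ i ∈ I, 0 ≤ α i ∧ α i ≤ m) → (∀ j ∈ J, 0 ≤ β j ∧ β j ≤ m) →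
      (∀ i ∈ I, ∀ j ∈ J, α i * β j ≤ H (i + j)) →
      ∃ K : Finset ℤ, K ⊆ I + J ∧ K.card + 1 = I.card + J.card ∧
        ∑ i ∈ I, α i ^ 2 + ∑ j ∈ J, β j ^ 2 ≤ ∑ k ∈ K, H k + m ^ 2 := by
  intro N
  induction N with
  | zero =>
    intro I J hN hi0
    have : 0 < I.card := Finset.card_pos.mpr ⟨i0, hi0⟩
    omega
  | succ N ih =>
    intro I J hN hi0 hj0 ha hb hH
    have hI : I.Nonempty := ⟨i0, hi0⟩
    have hJ : J.Nonempty := ⟨j0, hj0⟩
    -- removal of an element of I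
    have stepI : ∀ i1 ∈ I, i1 ≠ i0 → (∀ i ∈ I, α i1 ≤ α i) → (∀ j ∈ J, α i1 ≤ β j) →
        ∃ K : Finset ℤ, K ⊆ I + J ∧ K.card + 1 = I.card + J.card ∧
        ∑ i ∈ I, α i ^ 2 + ∑ j ∈ J, β j ^ 2 ≤ ∑ k ∈ K, H k + m ^ 2 := by
      intro i1 hi1 hne h1 h2
      have hc : (I.erase i1).card + 1 = I.card := Finset.card_erase_add_one hi1
      obtain ⟨K', hK', hKc, hs⟩ := ih (I.erase i1) J (by omega)
        (Finset.mem_erase.mpr ⟨hne.symm, hi0⟩) hj0
        (fun i hi => ha i (Finset.mem_of_mem_erase hi)) hb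
        (fun i hi j hj => hH i (Finset.mem_of_mem_erase hi) j hj)
      refine add_one m (α i1) α β H I J (I.erase i1) J K' (ha i1 hi1).1 hI hJ
        (Finset.erase_subset _ _) (Finset.Subset.refl _) (by omega) h1 h2 hH hK' hKc hs ?_
      have := Finset.sum_erase_add I (fun i => α i ^ 2) hi1
      beta_reduce at this
      linarith
    have stepJ : ∀ j1 ∈ J, j1 ≠ j0 → (∀ i ∈ I, β j1 ≤ α i) → (∀ j ∈ J, β j1 ≤ β j) →
        ∃ K : Finset ℤ, K ⊆ I + J ∧ K.card + 1 = I.card + J.card ∧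
        ∑ i ∈ I, α i ^ 2 + ∑ j ∈ J, β j ^ 2 ≤ ∑ k ∈ K, H k + m ^ 2 := by
      intro j1 hj1 hne h1 h2
      have hc : (J.erase j1).card + 1 = J.card := Finset.card_erase_add_one hj1
      obtain ⟨K', hK', hKc, hs⟩ := ih I (J.erase j1) (by omega) hi0
        (Finset.mem_erase.mpr ⟨hne.symm, hj0⟩) ha
        (fun j hj => hb j (Finset.mem_of_mem_erase hj))
        (fun i hi j hj => hH i hi j (Finset.mem_of_mem_erase hj))
      refine add_one m (β j1) α β H I J I (J.erase j1) K' (hb j1 hj1).1 hI hJ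
        (Finset.Subset.refl _) (Finset.erase_subset _ _) (by omega) h1 h2 hH hK' hKc hs ?_
      have := Finset.sum_erase_add J (fun i => β i ^ 2) hj1
      beta_reduce at this
      linarith
    by_cases hIe : (I.erase i0).Nonempty
    · obtain ⟨i1, hi1, hmin1⟩ := Finset.exists_min_image (I.erase i0) α hIe
      have hi1I := Finset.mem_of_mem_erase hi1
      have hi1n := Finset.ne_of_mem_erase hi1
      have hminI : ∀ i ∈ I, α i1 ≤ α i := by
        intro i hi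
        by_cases h : i = i0
        · rw [h, hα]; exact (ha i1 hi1I).2
        · exact hmin1 i (Finset.mem_erase.mpr ⟨h, hi⟩)
      by_cases hJe : (J.erase j0).Nonempty
      · obtain ⟨j1, hj1, hmin2⟩ := Finset.exists_min_image (J.erase j0) β hJe
        have hj1J := Finset.mem_of_mem_erase hj1
        have hj1n := Finset.ne_of_mem_erase hj1
        have hminJ : ∀ j ∈ J, β j1 ≤ β j := by
          intro j hj
          by_cases h : j = j0
          · rw [h, hβ]; exact (hb j1 hj1J).2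
          · exact hmin2 j (Finset.mem_erase.mpr ⟨h, hj⟩)
        rcases le_total (α i1) (β j1) with h | h
        · exact stepI i1 hi1I hi1n hminI (fun j hj => h.trans (hminJ j hj))
        · exact stepJ j1 hj1J hj1n (fun i hi => h.trans (hminI i hi)) hminJ
      · refine stepI i1 hi1I hi1n hminI ?_
        intro j hj
        have : j = j0 := by
          by_contra hne
          exact hJe ⟨j, Finset.mem_erase.mpr ⟨hne, hj⟩⟩
        rw [this, hβ]
        exact (ha i1 hi1I).2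
    · by_cases hJe : (J.erase j0).Nonempty
      · obtain ⟨j1, hj1, hmin2⟩ := Finset.exists_min_image (J.erase j0) β hJe
        have hj1J := Finset.mem_of_mem_erase hj1
        have hj1n := Finset.ne_of_mem_erase hj1
        refine stepJ j1 hj1J hj1n ?_ ?_
        · intro i hi
          have : i = i0 := by
            by_contra hne
            exact hIe ⟨i, Finset.mem_erase.mpr ⟨hne, hi⟩⟩
          rw [this, hα]
          exact (hb j1 hj1J).2
        · intro j hj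
          by_cases h : j = j0
          · rw [h, hβ]; exact (hb j1 hj1J).2
          · exact hmin2 j (Finset.mem_erase.mpr ⟨h, hj⟩)
      · have hI1 : I = {i0} := by
          ext i
          rw [Finset.mem_singleton]
          constructor
          · intro hi
            by_contra hne
            exact hIe ⟨i, Finset.mem_erase.mpr ⟨hne, hi⟩⟩
          · rintro rfl; exact hi0
        have hJ1 : J = {j0} := by
          ext j
          rw [Finset.mem_singleton]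
          constructor
          · intro hj
            by_contra hne
            exact hJe ⟨j, Finset.mem_erase.mpr ⟨hne, hj⟩⟩
          · rintro rfl; exact hj0
        refine ⟨{i0 + j0}, ?_, ?_, ?_⟩
        · rw [hI1, hJ1, Finset.singleton_add_singleton]
        · rw [hI1, hJ1]; simp
        · have h1 := hH i0 hi0 j0 hj0
          rw [hI1, hJ1, Finset.sum_singleton, Finset.sum_singleton, Finset.sum_singleton]
          rw [hα, hβ] at h1 ⊢
          nlinarith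

/-- the product bound for sup-convolutions of two sequences -/
theorem sup_conv (φ γ H : ℤ → ℝ) (I J : Finset ℤ) (i0 j0 : ℤ) (hi0 : i0 ∈ I) (hj0 : j0 ∈ J)
    (hφ : ∀ i ∈ I, 0 ≤ φ i ∧ φ i ≤ φ i0) (hγ : ∀ j ∈ J, 0 ≤ γ j ∧ γ j ≤ γ j0)
    (hH0 : ∀ k, 0 ≤ H k)
    (hH : ∀ i ∈ I, ∀ j ∈ J, φ i * γ j ≤ H (i + j)) :
    (2 * ∑ i ∈ I, φ i ^ 2 - φ i0 ^ 2) * (2 * ∑ j ∈ J, γ j ^ 2 - γ j0 ^ 2)
      ≤ (∑ k ∈ I + J, H k) ^ 2 := by
  have hA0 := (hφ i0 hi0).1
  have hB0 := (hγ j0 hj0).1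
  rcases eq_or_lt_of_le hA0 with hA | hA
  · have h1 : ∑ i ∈ I, φ i ^ 2 = 0 := by
      apply Finset.sum_eq_zero
      intro i hi
      have h2 := hφ i hi
      have h3 : φ i = 0 := by linarith [h2.1, h2.2]
      rw [h3]; norm_num
    rw [h1, ← hA]
    have : 0 ≤ (∑ k ∈ I + J, H k) ^ 2 := sq_nonneg _
    nlinarith
  rcases eq_or_lt_of_le hB0 with hB | hB
  · have h1 : ∑ i ∈ J, γ i ^ 2 = 0 := by
      apply Finset.sum_eq_zero
      intro i hi
      have h2 := hγ i hi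
      have h3 : γ i = 0 := by linarith [h2.1, h2.2]
      rw [h3]; norm_num
    rw [h1, ← hB]
    have : 0 ≤ (∑ k ∈ I + J, H k) ^ 2 := sq_nonneg _
    nlinarith
  obtain ⟨K, hK, -, hs⟩ := merge (φ i0 * γ j0) (fun i => γ j0 * φ i) (fun j => φ i0 * γ j)
    (fun k => φ i0 * γ j0 * H k) i0 j0 (by positivity) (by ring) rfl
    (I.card + J.card) I J rfl hi0 hj0
    (fun i hi => ⟨mul_nonneg hB0 (hφ i hi).1, by nlinarith [(hφ i hi).2]⟩)
    (fun j hj => ⟨mul_nonneg hA0 (hγ j hj).1, by nlinarith [(hγ j hj).2]⟩)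
    (by
      intro i hi j hj
      have h1 := hH i hi j hj
      have h2 : 0 < φ i0 * γ j0 := by positivity
      have h3 := mul_le_mul_of_nonneg_left h1 h2.le
      calc γ j0 * φ i * (φ i0 * γ j) = φ i0 * γ j0 * (φ i * γ j) := by ring
        _ ≤ _ := h3)
  have h1 : ∑ k ∈ K, H k ≤ ∑ k ∈ I + J, H k :=
    Finset.sum_le_sum_of_subset_of_nonneg hK (fun k _ _ => hH0 k)
  set U := ∑ i ∈ I, φ i ^ 2 with hU
  set V := ∑ j ∈ J, γ j ^ 2 with hV
  set Λ := ∑ k ∈ I + J, H k with hΛ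
  have e1 : ∑ i ∈ I, (γ j0 * φ i) ^ 2 = γ j0 ^ 2 * U := by
    rw [hU, Finset.mul_sum]; exact Finset.sum_congr rfl (fun i _ => by ring)
  have e2 : ∑ j ∈ J, (φ i0 * γ j) ^ 2 = φ i0 ^ 2 * V := by
    rw [hV, Finset.mul_sum]; exact Finset.sum_congr rfl (fun i _ => by ring)
  have e3 : ∑ k ∈ K, (φ i0 * γ j0 * H k) = φ i0 * γ j0 * ∑ k ∈ K, H k := by
    rw [Finset.mul_sum]
  have hs' : γ j0 ^ 2 * U + φ i0 ^ 2 * V ≤ φ i0 * γ j0 * ∑ k ∈ K, H k + (φ i0 * γ j0) ^ 2 := by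
    rw [← e1, ← e2, ← e3]; exact hs
  have hs2 : γ j0 ^ 2 * U + φ i0 ^ 2 * V - (φ i0 * γ j0) ^ 2 ≤ φ i0 * γ j0 * Λ := by
    have : φ i0 * γ j0 * ∑ k ∈ K, H k ≤ φ i0 * γ j0 * Λ :=
      mul_le_mul_of_nonneg_left h1 (by positivity)
    linarith
  have hU1 : φ i0 ^ 2 ≤ U := Finset.single_le_sum (f := fun i => φ i ^ 2)
    (fun i _ => sq_nonneg _) hi0
  have hV1 : γ j0 ^ 2 ≤ V := Finset.single_le_sum (f := fun i => γ i ^ 2)
    (fun i _ => sq_nonneg _) hj0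
  -- divide
  have hp : 0 < φ i0 ^ 2 * γ j0 ^ 2 := by positivity
  have hX0 : 0 ≤ γ j0 ^ 2 * U + φ i0 ^ 2 * V - (φ i0 * γ j0) ^ 2 := by
    have : (0:ℝ) ≤ γ j0 ^ 2 * (U - φ i0 ^ 2) := mul_nonneg (sq_nonneg _) (by linarith)
    have : (0:ℝ) ≤ φ i0 ^ 2 * V := mul_nonneg (sq_nonneg _) (by nlinarith [sq_nonneg (γ j0)])
    nlinarith
  have hsq : (γ j0 ^ 2 * U + φ i0 ^ 2 * V - (φ i0 * γ j0) ^ 2) ^ 2 ≤ (φ i0 * γ j0 * Λ) ^ 2 :=
    pow_le_pow_left₀ hX0 hs2 2
  have hkey : φ i0 ^ 2 * γ j0 ^ 2 * ((2 * U - φ i0 ^ 2) * (2 * V - γ j0 ^ 2))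
      ≤ (γ j0 ^ 2 * U + φ i0 ^ 2 * V - (φ i0 * γ j0) ^ 2) ^ 2 := by
    nlinarith [sq_nonneg (γ j0 ^ 2 * U - φ i0 ^ 2 * V)]
  have : φ i0 ^ 2 * γ j0 ^ 2 * ((2 * U - φ i0 ^ 2) * (2 * V - γ j0 ^ 2))
      ≤ φ i0 ^ 2 * γ j0 ^ 2 * Λ ^ 2 := by
    calc _ ≤ _ := hkey
      _ ≤ _ := hsq
      _ = _ := by ring
  exact le_of_mul_le_mul_left this hp

end Pool.Agent.TH651.DB
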