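import Pool.Agent.H947R2.DS.Stubs
import Pool.Agent.TH651.DB.Merge

set_option autoImplicit false
open Finset
open scoped Pointwise

namespace Pool.Agent.TH651.DB

open H947DS

/-- `√(3/2)` -/
noncomputable def lam : ℝ := Real.sqrt (3 / 2)

theorem lam_sq : lam ^ 2 = 3 / 2 := Real.sq_sqrt (by norm_num)

theorem lam_pos : 0 < lam := Real.sqrt_pos.mpr (by norm_num)

noncomputable def cc (i : ℤ) : ℝ := if i = 0 then 1 else lam

theorem cc_pos (i : ℤ) : 0 < cc i := by unfold cc; split_ifs; norm_num; exact lam_pos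

/-- weighted cardinality -/
noncomputable def wt {n : ℕ} (S : Finset (Fin n → ℤ)) : ℝ := ∑ x ∈ S, lam ^ (nzZ x)

/-- closed under replacing a coordinate by zero -/
def ZC {n : ℕ} (D : Finset (Fin n → ℤ)) : Prop := ∀ x ∈ D, ∀ i, Function.update x i 0 ∈ D

theorem nzZ_succ {n : ℕ} (x : Fin (n + 1) → ℤ) :
    nzZ x = (if x 0 = 0 then 0 else 1) + nzZ (Fin.tail x) := by
  unfold nzZ
  rw [Finset.card_filter, Finset.card_filter, Fin.sum_univ_succ]
  congr 1
  by_cases h : x 0 = 0 <;> simp [h]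

/-- slices in the first coordinate -/
def sl {n : ℕ} (A : Finset (Fin (n + 1) → ℤ)) (i : ℤ) : Finset (Fin n → ℤ) :=
  (A.filter (fun x => x 0 = i)).image Fin.tail

theorem mem_sl {n : ℕ} (A : Finset (Fin (n + 1) → ℤ)) (i : ℤ) (y : Fin n → ℤ) :
    y ∈ sl A i ↔ (Fin.cons i y : Fin (n + 1) → ℤ) ∈ A := by
  unfold sl
  rw [Finset.mem_image]
  constructor
  · rintro ⟨x, hx, rfl⟩
    rw [Finset.mem_filter] at hx
    obtain ⟨hx, rfl⟩ := hx
    rw [Fin.cons_self_tail]
    exact hx
  · intro hy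
    refine ⟨_, Finset.mem_filter.mpr ⟨hy, ?_⟩, ?_⟩
    · simp
    · simp

theorem tail_inj {n : ℕ} (A : Finset (Fin (n + 1) → ℤ)) (i : ℤ) :
    Set.InjOn (Fin.tail : (Fin (n + 1) → ℤ) → (Fin n → ℤ))
      ((A.filter (fun x => x 0 = i) : Finset (Fin (n + 1) → ℤ)) : Set (Fin (n + 1) → ℤ)) := by
  intro x hx y hy hxy
  rw [Finset.mem_coe, Finset.mem_filter] at hx hy
  rw [← Fin.cons_self_tail x, ← Fin.cons_self_tail y, hxy, hx.2, hy.2]

theorem card_sl {n : ℕ} (A : Finset (Fin (n + 1) → ℤ)) (i : ℤ) :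
    (sl A i).card = (A.filter (fun x => x 0 = i)).card :=
  Finset.card_image_of_injOn (tail_inj A i)

theorem wt_sum {n : ℕ} (A : Finset (Fin (n + 1) → ℤ)) (I : Finset ℤ) (hI : ∀ x ∈ A, x 0 ∈ I) :
    wt A = ∑ i ∈ I, cc i * wt (sl A i) := by
  unfold wt
  rw [← Finset.sum_fiberwise_of_maps_to (g := fun x : Fin (n + 1) → ℤ => x 0) (t := I) hI]
  apply Finset.sum_congr rfl
  intro i _
  unfold sl
  rw [Finset.sum_image (tail_inj A i), Finset.mul_sum]
  apply Finset.sum_congr rfl
  intro x hx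
  rw [Finset.mem_filter] at hx
  rw [nzZ_succ, pow_add]
  congr 1
  unfold cc
  rw [← hx.2]
  by_cases h : x 0 = 0 <;> simp [h]

theorem card_sum_le {n : ℕ} (A : Finset (Fin (n + 1) → ℤ)) (I : Finset ℤ) :
    ∑ i ∈ I, ((sl A i).card : ℝ) ≤ A.card := by
  have h1 : ∑ i ∈ I, (A.filter (fun x => x 0 = i)).card ≤ A.card := by
    rw [← Finset.card_biUnion]
    · apply Finset.card_le_card
      intro x hx
      rw [Finset.mem_biUnion] at hx
      obtain ⟨i, _, hx⟩ := hx
      exact (Finset.mem_filter.mp hx).1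
    · intro i _ j _ hij
      rw [Function.onFun, Finset.disjoint_left]
      intro x hx hx'
      exact hij ((Finset.mem_filter.mp hx).2.symm.trans (Finset.mem_filter.mp hx').2)
  calc ∑ i ∈ I, ((sl A i).card : ℝ) = ((∑ i ∈ I, (A.filter (fun x => x 0 = i)).card : ℕ) : ℝ) := by
        push_cast
        exact Finset.sum_congr rfl (fun i _ => by rw [card_sl])
    _ ≤ A.card := by exact_mod_cast h1

/-- the one-dimensional inequality -/
theorem one_dim (I : Finset ℤ) (s d : ℤ → ℝ) (i0 : ℤ) (hi0 : i0 ∈ I)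
    (hd : ∀ i ∈ I, 0 < d i) (hd0 : 0 ≤ d 0) (hdm : ∀ i ∈ I, d i ≤ d 0) :
    (∑ i ∈ I, cc i * s i) ^ 2 ≤
      (∑ i ∈ insert 0 I, d i) *
        (2 * ∑ i ∈ I, (s i / Real.sqrt (d i)) ^ 2 - (s i0 / Real.sqrt (d i0)) ^ 2) := by
  set φ : ℤ → ℝ := fun i => s i / Real.sqrt (d i) with hφ
  have hφ2 : ∀ i ∈ I, φ i ^ 2 * d i = s i ^ 2 := by
    intro i hi
    have h1 := hd i hi
    simp only [hφ, div_pow, Real.sq_sqrt h1.le]
    field_simp
  set w : ℤ → ℝ := fun i => if i = i0 then 1 else 2 with hw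
  have hwpos : ∀ i, 0 < w i := by intro i; simp only [hw]; split_ifs <;> norm_num
  have hCS := Finset.sum_sq_le_sum_mul_sum_of_sq_le_mul I (r := fun i => cc i * s i)
    (f := fun i => w i * φ i ^ 2) (g := fun i => cc i ^ 2 * d i / w i)
    (fun i _ => mul_nonneg (hwpos i).le (sq_nonneg _))
    (fun i hi => div_nonneg (mul_nonneg (sq_nonneg _) (hd i hi).le) (hwpos i).le)
    (fun i hi => by
      have h1 := hφ2 i hi
      have h2 := (hwpos i).ne'
      apply le_of_eq
      field_simp
      rw [← h1]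
      ring)
  have e1 : ∑ i ∈ I, w i * φ i ^ 2 = 2 * ∑ i ∈ I, φ i ^ 2 - φ i0 ^ 2 := by
    have : ∑ i ∈ I, w i * φ i ^ 2 = ∑ i ∈ I, (2 * φ i ^ 2 - if i = i0 then φ i0 ^ 2 else 0) := by
      apply Finset.sum_congr rfl
      intro i _
      simp only [hw]
      split_ifs with h
      · rw [h]; ring
      · ring
    rw [this, Finset.sum_sub_distrib, Finset.mul_sum, Finset.sum_ite_eq' I i0, if_pos hi0]
  have e2 : ∑ i ∈ I, cc i ^ 2 * d i / w i ≤ ∑ i ∈ insert 0 I, d i := by
    by_cases h0 : i0 = 0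
    · calc ∑ i ∈ I, cc i ^ 2 * d i / w i ≤ ∑ i ∈ I, d i := by
            apply Finset.sum_le_sum
            intro i hi
            simp only [hw, h0, cc]
            have := hd i hi
            split_ifs with h
            · simp
            · rw [lam_sq]; linarith
        _ ≤ _ := by
            apply Finset.sum_le_sum_of_subset_of_nonneg (Finset.subset_insert _ _)
            intro i hi _
            rw [Finset.mem_insert] at hi
            rcases hi with rfl | hi
            · exact hd0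
            · exact (hd i hi).le
    · set h : ℤ → ℝ := fun i => d i + (if i = i0 then d i0 / 2 else 0)
        - (if i = 0 then d 0 / 2 else 0) with hh
      have hd0' : 0 < d 0 := lt_of_lt_of_le (hd i0 hi0) (hdm i0 hi0)
      calc ∑ i ∈ I, cc i ^ 2 * d i / w i ≤ ∑ i ∈ I, h i := by
            apply Finset.sum_le_sum
            intro i hi
            have hdi := hd i hi
            simp only [hw, hh, cc]
            by_cases h1 : i = 0
            · have h2 : i ≠ i0 := fun h => h0 (h.symm.trans h1)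
              subst h1
              rw [if_pos rfl, if_neg h2, if_neg h2, if_pos rfl]
              linarith
            · rw [if_neg h1, if_neg h1, lam_sq]
              by_cases h2 : i = i0
              · rw [if_pos h2, if_pos h2, ← h2]; linarith
              · rw [if_neg h2, if_neg h2]; linarith
        _ ≤ ∑ i ∈ insert 0 I, h i := by
            apply Finset.sum_le_sum_of_subset_of_nonneg (Finset.subset_insert _ _)
            intro i hi hni
            rw [Finset.mem_insert] at hi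
            rcases hi with rfl | hi
            · show (0:ℝ) ≤ d 0 + (if (0:ℤ) = i0 then d i0 / 2 else 0)
                - (if (0:ℤ) = 0 then d 0 / 2 else 0)
              rw [if_neg (fun h => h0 h.symm), if_pos rfl]
              linarith
            · exact absurd hi hni
        _ = ∑ i ∈ insert 0 I, d i + d i0 / 2 - d 0 / 2 := by
            simp only [hh]
            rw [Finset.sum_sub_distrib, Finset.sum_add_distrib, Finset.sum_ite_eq',
              Finset.sum_ite_eq', if_pos (Finset.mem_insert_of_mem hi0),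
              if_pos (Finset.mem_insert_self _ _)]
        _ ≤ _ := by
            have := hdm i0 hi0
            linarith
  have hQ0 : 0 ≤ ∑ i ∈ I, w i * φ i ^ 2 :=
    Finset.sum_nonneg (fun i _ => mul_nonneg (hwpos i).le (sq_nonneg _))
  calc (∑ i ∈ I, cc i * s i) ^ 2
      ≤ (∑ i ∈ I, w i * φ i ^ 2) * ∑ i ∈ I, cc i ^ 2 * d i / w i := hCS
    _ ≤ (∑ i ∈ I, w i * φ i ^ 2) * ∑ i ∈ insert 0 I, d i := mul_le_mul_of_nonneg_left e2 hQ0
    _ = _ := by rw [e1]; ring

theorem wt_pos {n : ℕ} (S : Finset (Fin n → ℤ)) (hS : S.Nonempty) : 0 < wt S :=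
  Finset.sum_pos (fun _ _ => pow_pos lam_pos _) hS

theorem zc_sl {n : ℕ} (D : Finset (Fin (n + 1) → ℤ)) (h : ZC D) (i : ℤ) : ZC (sl D i) := by
  intro x hx j
  rw [mem_sl] at hx ⊢
  have := h _ hx j.succ
  rwa [← Fin.cons_update] at this

theorem sl_zero {n : ℕ} (D : Finset (Fin (n + 1) → ℤ)) (h : ZC D) (i : ℤ) : sl D i ⊆ sl D 0 := by
  intro x hx
  rw [mem_sl] at hx ⊢
  have := h _ hx 0
  rwa [Fin.update_cons_zero] at this

theorem rank_ineq : ∀ (n : ℕ) (S D T E : Finset (Fin n → ℤ)), S.Nonempty → T.Nonempty →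
    S ⊆ D → T ⊆ E → ZC D → ZC E →
    (wt S * wt T) ^ 2 ≤ ((S + T).card : ℝ) ^ 2 * ((D.card : ℝ) * E.card) := by
  intro n
  induction n with
  | zero =>
    intro S D T E hS hT hSD hTE _ _
    obtain ⟨a, ha⟩ := hS
    obtain ⟨b, hb⟩ := hT
    have hA' : S = {a} := by
      ext x
      rw [Finset.mem_singleton]
      exact ⟨fun _ => Subsingleton.elim _ _, fun h => h ▸ ha⟩
    have hB' : T = {b} := by
      ext x
      rw [Finset.mem_singleton]
      exact ⟨fun _ => Subsingleton.elim _ _, fun h => h ▸ hb⟩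
    have h5 : ∀ x : Fin 0 → ℤ, nzZ x = 0 := by intro x; simp [nzZ]
    have h6 : wt S = 1 := by
      rw [hA', wt, Finset.sum_singleton, h5, pow_zero]
    have h7 : wt T = 1 := by
      rw [hB', wt, Finset.sum_singleton, h5, pow_zero]
    have h8 : (1 : ℝ) ≤ ((S + T).card : ℝ) := by
      have : 0 < (S + T).card := Finset.card_pos.mpr ⟨a + b, Finset.add_mem_add ha hb⟩
      exact_mod_cast this
    have h9 : (1 : ℝ) ≤ (D.card : ℝ) := by
      have : 0 < D.card := Finset.card_pos.mpr ⟨a, hSD ha⟩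
      exact_mod_cast this
    have h10 : (1 : ℝ) ≤ (E.card : ℝ) := by
      have : 0 < E.card := Finset.card_pos.mpr ⟨b, hTE hb⟩
      exact_mod_cast this
    rw [h6, h7]
    have h11 : (1 : ℝ) ≤ (D.card : ℝ) * E.card := by nlinarith
    have h12 : (1 : ℝ) ≤ ((S + T).card : ℝ) ^ 2 := by nlinarith
    nlinarith
  | succ n ih =>
    intro S D T E hS hT hSD hTE hD hE
    set I : Finset ℤ := S.image (fun x => x 0) with hI
    set J : Finset ℤ := T.image (fun x => x 0) with hJ
    have hneI : ∀ i ∈ I, (sl S i).Nonempty := by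
      intro i hi
      obtain ⟨x, hx, rfl⟩ := Finset.mem_image.mp hi
      exact ⟨Fin.tail x, (mem_sl S _ _).mpr (by rw [Fin.cons_self_tail]; exact hx)⟩
    have hneJ : ∀ i ∈ J, (sl T i).Nonempty := by
      intro i hi
      obtain ⟨x, hx, rfl⟩ := Finset.mem_image.mp hi
      exact ⟨Fin.tail x, (mem_sl T _ _).mpr (by rw [Fin.cons_self_tail]; exact hx)⟩
    have hsubS : ∀ i, sl S i ⊆ sl D i := fun i x hx => by
      rw [mem_sl] at hx ⊢; exact hSD hx
    have hsubT : ∀ i, sl T i ⊆ sl E i := fun i x hx => by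
      rw [mem_sl] at hx ⊢; exact hTE hx
    have hdpos : ∀ i ∈ I, (0 : ℝ) < ((sl D i).card : ℝ) := by
      intro i hi
      exact_mod_cast Finset.card_pos.mpr ((hneI i hi).mono (hsubS i))
    have hepos : ∀ i ∈ J, (0 : ℝ) < ((sl E i).card : ℝ) := by
      intro i hi
      exact_mod_cast Finset.card_pos.mpr ((hneJ i hi).mono (hsubT i))
    set φ : ℤ → ℝ := fun i => wt (sl S i) / Real.sqrt ((sl D i).card : ℝ) with hφ
    set γ : ℤ → ℝ := fun i => wt (sl T i) / Real.sqrt ((sl E i).card : ℝ) with hγ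
    have hIne : I.Nonempty := hS.image _
    have hJne : J.Nonempty := hT.image _
    obtain ⟨i0, hi0, hmaxi⟩ := Finset.exists_max_image I φ hIne
    obtain ⟨j0, hj0, hmaxj⟩ := Finset.exists_max_image J γ hJne
    set H : ℤ → ℝ := fun k => (((S + T).filter (fun z => z 0 = k)).card : ℝ) with hH
    have hHcard : ∀ i j : ℤ, ((sl S i + sl T j).card : ℝ) ≤ H (i + j) := by
      intro i j
      have : (sl S i + sl T j).card ≤ ((S + T).filter (fun z => z 0 = i + j)).card := by
        apply Finset.card_le_card_of_injOn (fun z => (Fin.cons (i + j) z : Fin (n + 1) → ℤ))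
        · intro z hz
          have hz' := Finset.mem_coe.mp hz
          rw [Finset.mem_add] at hz'
          obtain ⟨a, ha, b, hb, rfl⟩ := hz'
          rw [mem_sl] at ha hb
          rw [Finset.mem_coe, Finset.mem_filter]
          refine ⟨?_, by simp⟩
          have := Finset.add_mem_add ha hb
          convert this using 1
          ext l
          refine Fin.cases ?_ (fun l => ?_) l
          · simp
          · simp
        · intro z _ z' _ h
          exact Fin.cons_right_injective (α := fun _ => ℤ) (i + j) h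
      simp only [hH]
      exact_mod_cast this
    have hmain : ∀ i ∈ I, ∀ j ∈ J, φ i * γ j ≤ H (i + j) := by
      intro i hi j hj
      have h1 := ih (sl S i) (sl D i) (sl T j) (sl E j) (hneI i hi) (hneJ j hj) (hsubS i)
        (hsubT j) (zc_sl D hD i) (zc_sl E hE j)
      have hdi := hdpos i hi
      have hej := hepos j hj
      have h2 : (φ i * γ j) ^ 2 ≤ ((sl S i + sl T j).card : ℝ) ^ 2 := by
        simp only [hφ, hγ]
        rw [div_mul_div_comm, div_pow, mul_pow (Real.sqrt _) (Real.sqrt _), Real.sq_sqrt hdi.le,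
          Real.sq_sqrt hej.le, div_le_iff₀ (by positivity)]
        exact h1
      have h3 : 0 ≤ φ i * γ j := mul_nonneg
        (div_nonneg (wt_pos _ (hneI i hi)).le (Real.sqrt_nonneg _))
        (div_nonneg (wt_pos _ (hneJ j hj)).le (Real.sqrt_nonneg _))
      exact (abs_le_of_sq_le_sq' h2 (by positivity)).2.trans (hHcard i j)
    have hsup := sup_conv φ γ H I J i0 j0 hi0 hj0
      (fun i hi => ⟨div_nonneg (wt_pos _ (hneI i hi)).le (Real.sqrt_nonneg _), hmaxi i hi⟩)
      (fun j hj => ⟨div_nonneg (wt_pos _ (hneJ j hj)).le (Real.sqrt_nonneg _), hmaxj j hj⟩)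
      (fun k => Nat.cast_nonneg _) hmain
    have hsumH : ∑ k ∈ I + J, H k ≤ ((S + T).card : ℝ) := by
      have := card_sum_le (S + T) (I + J)
      refine le_trans (le_of_eq ?_) this
      apply Finset.sum_congr rfl
      intro k _
      rw [card_sl]
    have h1 := one_dim I (fun i => wt (sl S i)) (fun i => ((sl D i).card : ℝ)) i0 hi0
      hdpos (Nat.cast_nonneg _)
      (fun i _ => by exact_mod_cast Finset.card_le_card (sl_zero D hD i))
    have h2 := one_dim J (fun i => wt (sl T i)) (fun i => ((sl E i).card : ℝ)) j0 hj0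
      hepos (Nat.cast_nonneg _)
      (fun i _ => by exact_mod_cast Finset.card_le_card (sl_zero E hE i))
    rw [← wt_sum S I (fun x hx => Finset.mem_image_of_mem _ hx)] at h1
    rw [← wt_sum T J (fun x hx => Finset.mem_image_of_mem _ hx)] at h2
    have h3 := card_sum_le D (insert 0 I)
    have h4 := card_sum_le E (insert 0 J)
    set Q1 := 2 * ∑ i ∈ I, φ i ^ 2 - φ i0 ^ 2 with hQ1
    set Q2 := 2 * ∑ j ∈ J, γ j ^ 2 - γ j0 ^ 2 with hQ2
    have hQ1n : 0 ≤ Q1 := by
      have h8 : φ i0 ^ 2 ≤ ∑ i ∈ I, φ i ^ 2 :=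
        Finset.single_le_sum (f := fun i => φ i ^ 2) (fun i _ => sq_nonneg _) hi0
      have h9 := sq_nonneg (φ i0)
      linarith
    have hQ2n : 0 ≤ Q2 := by
      have h8 : γ j0 ^ 2 ≤ ∑ i ∈ J, γ i ^ 2 :=
        Finset.single_le_sum (f := fun i => γ i ^ 2) (fun i _ => sq_nonneg _) hj0
      have h9 := sq_nonneg (γ j0)
      linarith
    have h5 : wt S ^ 2 ≤ (D.card : ℝ) * Q1 := h1.trans (mul_le_mul_of_nonneg_right h3 hQ1n)
    have h6 : wt T ^ 2 ≤ (E.card : ℝ) * Q2 := h2.trans (mul_le_mul_of_nonneg_right h4 hQ2n)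
    have h7 : Q1 * Q2 ≤ ((S + T).card : ℝ) ^ 2 := by
      refine hsup.trans ?_
      have : 0 ≤ ∑ k ∈ I + J, H k := Finset.sum_nonneg (fun k _ => Nat.cast_nonneg _)
      exact pow_le_pow_left₀ this hsumH 2
    calc (wt S * wt T) ^ 2 = wt S ^ 2 * wt T ^ 2 := by ring
      _ ≤ ((D.card : ℝ) * Q1) * ((E.card : ℝ) * Q2) :=
          mul_le_mul h5 h6 (sq_nonneg _) (by positivity)
      _ = (Q1 * Q2) * ((D.card : ℝ) * E.card) := by ring
      _ ≤ _ := mul_le_mul_of_nonneg_right h7 (by positivity)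

end Pool.Agent.TH651.DB
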