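import Pool.Agent.H947R2.DS.A
import Pool.Agent.H947R2.DS.One
import Pool.Agent.H331R9.DS.ORTH
import Pool.Agent.TH651.DB.Rank

set_option autoImplicit false
open Finset
open scoped Pointwise

namespace Pool.Agent.TH651.DB

open H947DS

/-- `x` lies in the box between `z` and `2 z` -/
def R {n : ℕ} (x z : Fin n → ℤ) : Prop := ∀ i, |z i| ≤ |x i| ∧ |x i| ≤ 2 * |z i| ∧ 0 ≤ x i * z i

instance {n : ℕ} (x z : Fin n → ℤ) : Decidable (R x z) := by unfold R; infer_instance

theorem zc_of_ba {n : ℕ} (D : Finset (Fin n → ℤ)) (h : BoxAnchored D) : ZC D := by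
  intro x hx i
  apply h x hx
  intro j
  by_cases hj : j = i
  · subst hj
    rw [Function.update_self]
    rcases le_total 0 (x j) with h1 | h1
    · left; exact ⟨le_refl _, h1⟩
    · right; exact ⟨h1, le_refl _⟩
  · rw [Function.update_of_ne hj]
    rcases le_total 0 (x j) with h1 | h1
    · left; exact ⟨h1, le_refl _⟩
    · right; exact ⟨le_refl _, h1⟩

/-- many `z` in `D` with `x` between `z` and `2 z` -/
theorem count {n : ℕ} (D : Finset (Fin n → ℤ)) (h : BoxAnchored D) (x : Fin n → ℤ) (hx : x ∈ D) :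
    ∏ i, (|(x i : ℝ)| + 1) ≤ 2 ^ (nzZ x) * ((D.filter (fun z => R x z)).card : ℝ) := by
  set P : Finset (Fin n → ℕ) :=
    Fintype.piFinset (fun i => Finset.Icc (((x i).natAbs + 1) / 2) (x i).natAbs) with hP
  have h1 : P.card ≤ (D.filter (fun z => R x z)).card := by
    apply Finset.card_le_card_of_injOn (fun z : Fin n → ℕ => fun i => (x i).sign * (z i : ℤ))
    · intro z hz
      rw [Finset.mem_coe, hP, Fintype.mem_piFinset] at hz
      rw [Finset.mem_coe, Finset.mem_filter]
      have hz' : ∀ i, ((x i).natAbs + 1) / 2 ≤ z i ∧ z i ≤ (x i).natAbs := fun i => by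
        have := hz i
        rwa [Finset.mem_Icc] at this
      have key : ∀ i, (0 ≤ x i ∧ 0 ≤ (x i).sign * (z i : ℤ) ∧ (x i).sign * (z i : ℤ) ≤ x i ∧
            x i ≤ 2 * ((x i).sign * (z i : ℤ))) ∨
          (x i ≤ 0 ∧ (x i).sign * (z i : ℤ) ≤ 0 ∧ x i ≤ (x i).sign * (z i : ℤ) ∧
            2 * ((x i).sign * (z i : ℤ)) ≤ x i) := by
        intro i
        obtain ⟨ha, hb⟩ := hz' i
        rcases lt_trichotomy (x i) 0 with h0 | h0 | h0
        · right
          rw [Int.sign_eq_neg_one_of_neg h0]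
          omega
        · left
          rw [h0]
          simp
        · left
          rw [Int.sign_eq_one_of_pos h0]
          omega
      refine ⟨h x hx _ (fun i => ?_), fun i => ?_⟩
      · rcases key i with ⟨_, h2, h3, _⟩ | ⟨_, h2, h3, _⟩
        · left; exact ⟨h2, h3⟩
        · right; exact ⟨h3, h2⟩
      · rcases key i with ⟨h1, h2, h3, h4⟩ | ⟨h1, h2, h3, h4⟩
        · rw [abs_of_nonneg h1, abs_of_nonneg h2]
          exact ⟨h3, h4, mul_nonneg h1 h2⟩
        · rw [abs_of_nonpos h1, abs_of_nonpos h2]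
          exact ⟨by linarith, by linarith, mul_nonneg_of_nonpos_of_nonpos h1 h2⟩
    · intro z hz z' hz' hzz
      rw [Finset.mem_coe, hP, Fintype.mem_piFinset] at hz hz'
      ext i
      have h2 := congrFun hzz i
      simp only at h2
      have ha := hz i
      have hb := hz' i
      rw [Finset.mem_Icc] at ha hb
      rcases lt_trichotomy (x i) 0 with h0 | h0 | h0
      · rw [Int.sign_eq_neg_one_of_neg h0] at h2; omega
      · rw [h0] at ha hb; simp at ha hb; omega
      · rw [Int.sign_eq_one_of_pos h0] at h2; omega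
  have h2 : ∏ i, (|(x i : ℝ)| + 1) ≤ 2 ^ (nzZ x) * (P.card : ℝ) := by
    have e1 : (2 : ℝ) ^ (nzZ x) = ∏ i, (if x i ≠ 0 then (2 : ℝ) else 1) := by
      unfold nzZ
      rw [Finset.prod_ite, Finset.prod_const, Finset.prod_const_one, mul_one]
    rw [e1, hP, Fintype.card_piFinset]
    push_cast
    rw [← Finset.prod_mul_distrib]
    apply Finset.prod_le_prod
    · intro i _; positivity
    · intro i _
      have e2 : |(x i : ℝ)| = ((x i).natAbs : ℝ) := by
        rw [Nat.cast_natAbs, Int.cast_abs]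
      rw [e2, Nat.card_Icc]
      by_cases h0 : x i = 0
      · rw [h0]; simp
      · rw [if_pos h0]
        have : (x i).natAbs + 1 ≤ 2 * ((x i).natAbs + 1 - ((x i).natAbs + 1) / 2) := by omega
        exact_mod_cast this
  calc _ ≤ _ := h2
    _ ≤ _ := by
        apply mul_le_mul_of_nonneg_left _ (by positivity)
        exact_mod_cast h1

/-- sets in one orthant with few small boxes -/
theorem size {n : ℕ} (B : Finset (Fin n → ℤ)) (σ : Fin n → ℤ) (hσ : ∀ i, σ i = 1 ∨ σ i = -1)
    (hB : ∀ x ∈ B, ∀ i, 0 ≤ σ i * x i) (r : ℕ) (hr : ∀ x ∈ B, nzZ x ≤ r) (θ : ℝ) (hθ : 0 ≤ θ)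
    (hb : ∀ x ∈ B, ∏ i, (|(x i : ℝ)| + 1) ≤ θ) :
    (B.card : ℝ) ^ 2 ≤ 16 ^ r * ((B + B).card : ℝ) * θ := by
  rcases B.eq_empty_or_nonempty with rfl | hne
  · simp
  set A : Finset (Fin n → ℕ) := B.image (fun x i => (x i).natAbs) with hA
  have habs : ∀ x ∈ B, ∀ i, ((x i).natAbs : ℤ) = σ i * x i := by
    intro x hx i
    have h1 := hB x hx i
    rcases hσ i with h | h <;> rw [h] at h1 ⊢ <;> omega
  have hinj : Set.InjOn (fun (x : Fin n → ℤ) i => (x i).natAbs) (B : Set (Fin n → ℤ)) := by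
    intro x hx y hy hxy
    ext i
    have h1 := habs x hx i
    have h2 := habs y hy i
    have h3 := congrFun hxy i
    simp only at h3
    rw [h3] at h1
    rcases hσ i with h | h <;> rw [h] at h1 h2 <;> omega
  have hAc : A.card = B.card := Finset.card_image_of_injOn hinj
  have hAA : (A + A).card ≤ (B + B).card := by
    apply Finset.card_le_card_of_injOn (fun w : Fin n → ℕ => fun i => σ i * (w i : ℤ))
    · intro w hw
      have hw' := Finset.mem_coe.mp hw
      obtain ⟨a, ha, b, hb', rfl⟩ := Finset.mem_add.mp hw'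
      obtain ⟨x, hx, rfl⟩ := Finset.mem_image.mp ha
      obtain ⟨y, hy, rfl⟩ := Finset.mem_image.mp hb'
      rw [Finset.mem_coe]
      have : (fun i => σ i * ((((fun i => (x i).natAbs) + fun i => (y i).natAbs) i : ℕ) : ℤ))
          = x + y := by
        ext i
        simp only [Pi.add_apply]
        push_cast
        have h1 := habs x hx i
        have h2 := habs y hy i
        push_cast at h1 h2
        rw [h1, h2]
        rcases hσ i with h | h <;> rw [h] <;> ring
      have h5 := Finset.add_mem_add hx hy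
      rw [← this] at h5
      exact h5
    · intro w _ w' _ h
      ext i
      have h1 := congrFun h i
      simp only at h1
      rcases hσ i with h2 | h2 <;> rw [h2] at h1 <;> omega
  have hnz : ∀ a ∈ A, nz a ≤ r := by
    intro a ha
    obtain ⟨x, hx, rfl⟩ := Finset.mem_image.mp ha
    have : nz (fun i => (x i).natAbs) = nzZ x := by
      unfold nz nzZ
      congr 1
      apply Finset.filter_congr
      intro i _
      simp
    rw [this]
    exact hr x hx
  have hpr : ∀ a ∈ A, ∏ i, ((a i : ℝ) + 1) ≤ θ := by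
    intro a ha
    obtain ⟨x, hx, rfl⟩ := Finset.mem_image.mp ha
    refine le_trans (le_of_eq ?_) (hb x hx)
    apply Finset.prod_congr rfl
    intro i _
    rw [Nat.cast_natAbs, Int.cast_abs]
  have hAn : A.Nonempty := hne.image _
  have h1 := A_proof (ONE_proof W_proof) n A A θ θ hAn hAn hpr hpr
  rw [Real.sqrt_mul_self hθ] at h1
  have h2 : (A.card : ℝ) * (1 / 4) ^ r ≤ ∑ x ∈ A, (1 / 4 : ℝ) ^ (nz x) := by
    rw [← nsmul_eq_mul]
    apply Finset.card_nsmul_le_sum
    intro a ha
    exact pow_le_pow_of_le_one (by norm_num) (by norm_num) (hnz a ha)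
  have h3 : 0 ≤ (A.card : ℝ) * (1 / 4) ^ r := by positivity
  have h4 : ((A.card : ℝ) * (1 / 4) ^ r) ^ 2 ≤ ((A + A).card : ℝ) * θ := by
    calc _ = ((A.card : ℝ) * (1 / 4) ^ r) * ((A.card : ℝ) * (1 / 4) ^ r) := by ring
      _ ≤ _ := mul_le_mul h2 h2 h3 (h3.trans h2)
      _ ≤ _ := h1
  have h5 : ((A + A).card : ℝ) * θ ≤ ((B + B).card : ℝ) * θ :=
    mul_le_mul_of_nonneg_right (by exact_mod_cast hAA) hθ
  rw [hAc] at h4
  have h6 : ((1 / 4 : ℝ) ^ r) ^ 2 * 16 ^ r = 1 := by
    rw [← pow_mul, mul_comm r 2, pow_mul, ← mul_pow]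
    norm_num
  calc (B.card : ℝ) ^ 2 = ((B.card : ℝ) * (1 / 4) ^ r) ^ 2 * 16 ^ r := by
        rw [mul_pow, mul_assoc, h6, mul_one]
    _ ≤ (((B + B).card : ℝ) * θ) * 16 ^ r := mul_le_mul_of_nonneg_right (h4.trans h5) (by positivity)
    _ = _ := by ring

end Pool.Agent.TH651.DB
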