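import Pool.Agent.TH651.DB.Main

set_option autoImplicit false
open Finset
open scoped Pointwise

namespace Pool.Agent.TH651.DB

open H947DS

theorem box_card {n : ℕ} (D : Finset (Fin n → ℤ)) (h : BoxAnchored D) (z : Fin n → ℤ)
    (hz : z ∈ D) : ∏ i, ((z i).natAbs + 1) ≤ D.card := by
  have e1 : ∏ i, ((z i).natAbs + 1)
      = (Fintype.piFinset (fun i => Finset.range ((z i).natAbs + 1))).card := by
    rw [Fintype.card_piFinset]
    simp
  rw [e1]
  apply Finset.card_le_card_of_injOn (fun m : Fin n → ℕ => fun i => (z i).sign * (m i : ℤ))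
  · intro m hm
    rw [Finset.mem_coe, Fintype.mem_piFinset] at hm
    rw [Finset.mem_coe]
    apply h z hz
    intro i
    have h1 := hm i
    rw [Finset.mem_range] at h1
    rcases lt_trichotomy (z i) 0 with h0 | h0 | h0
    · right
      simp only [Int.sign_eq_neg_one_of_neg h0]
      omega
    · left
      simp [h0]
    · left
      simp only [Int.sign_eq_one_of_pos h0]
      omega
  · intro m hm m' hm' hh
    rw [Finset.mem_coe, Fintype.mem_piFinset] at hm hm'
    ext i
    have h1 := hm i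
    have h1' := hm' i
    rw [Finset.mem_range] at h1 h1'
    have h2 := congrFun hh i
    simp only at h2
    rcases lt_trichotomy (z i) 0 with h0 | h0 | h0
    · rw [Int.sign_eq_neg_one_of_neg h0] at h2; omega
    · rw [h0] at h1 h1'; simp at h1 h1'; omega
    · rw [Int.sign_eq_one_of_pos h0] at h2; omega

/-- the progression spanned by the box between `z` and `2 z` -/
theorem to_prog {Z : Type*} [AddCommGroup Z] {n : ℕ} (v : Fin n → Z) (z : Fin n → ℤ) :
    ∃ (w : Fin (nzZ z) → Z) (N : Fin (nzZ z) → ℕ), (∀ j, 2 ≤ N j) ∧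
      ∏ j, N j = ∏ i, ((z i).natAbs + 1) ∧
      ∀ x : Fin n → ℤ, R x z → ∃ m : Fin (nzZ z) → ℕ, (∀ j, m j < N j) ∧
        ∑ i, x i • v i = ∑ i, z i • v i + ∑ j, m j • w j := by
  classical
  set s : Finset (Fin n) := univ.filter (fun i => z i ≠ 0) with hs
  have hcard : s.card = nzZ z := rfl
  set e : {x // x ∈ s} ≃ Fin (nzZ z) := s.equivFin with he
  have sum_e : ∀ (f : Fin n → Z), (∀ i, z i = 0 → f i = 0) →
      ∑ i, f i = ∑ j, f (e.symm j : Fin n) := by
    intro f hf
    have h1 : ∑ i, f i = ∑ i ∈ s, f i := by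
      symm
      apply Finset.sum_subset (Finset.subset_univ _)
      intro i _ hi
      apply hf
      by_contra h
      exact hi (Finset.mem_filter.mpr ⟨Finset.mem_univ _, h⟩)
    rw [h1, ← Finset.sum_coe_sort s f]
    exact (Equiv.sum_comp e.symm (fun i : {x // x ∈ s} => f i)).symm
  refine ⟨fun j => (z (e.symm j : Fin n)).sign • v (e.symm j : Fin n),
    fun j => (z (e.symm j : Fin n)).natAbs + 1, ?_, ?_, ?_⟩
  · intro j
    have h1 : z (e.symm j : Fin n) ≠ 0 := (Finset.mem_filter.mp (e.symm j).2).2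
    have := Int.natAbs_pos.mpr h1
    show 2 ≤ (z (e.symm j : Fin n)).natAbs + 1
    omega
  · have h1 : ∏ i, ((z i).natAbs + 1) = ∏ i ∈ s, ((z i).natAbs + 1) := by
      symm
      apply Finset.prod_subset (Finset.subset_univ _)
      intro i _ hi
      have : z i = 0 := by
        by_contra h
        exact hi (Finset.mem_filter.mpr ⟨Finset.mem_univ _, h⟩)
      rw [this]; rfl
    rw [h1, ← Finset.prod_coe_sort s (fun i => (z i).natAbs + 1)]
    exact Equiv.prod_comp e.symm (fun i : {x // x ∈ s} => (z i).natAbs + 1)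
  · intro x hx
    refine ⟨fun j => (x (e.symm j : Fin n)).natAbs - (z (e.symm j : Fin n)).natAbs, ?_, ?_⟩
    · intro j
      have h1 := hx (e.symm j : Fin n)
      have h2 : |x (e.symm j : Fin n)| = ((x (e.symm j : Fin n)).natAbs : ℤ) :=
        Int.abs_eq_natAbs _
      have h3 : |z (e.symm j : Fin n)| = ((z (e.symm j : Fin n)).natAbs : ℤ) :=
        Int.abs_eq_natAbs _
      rw [h2, h3] at h1
      simp only
      omega
    · have key : ∀ i, x i = z i + (z i).sign * (((x i).natAbs - (z i).natAbs : ℕ) : ℤ) := by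
        intro i
        obtain ⟨h1, h2, h3⟩ := hx i
        rcases lt_trichotomy (z i) 0 with h0 | h0 | h0
        · have h4 : x i ≤ 0 := by
            by_contra hc
            push Not at hc
            have := mul_neg_of_pos_of_neg hc h0
            omega
          rw [Int.sign_eq_neg_one_of_neg h0]
          rw [abs_of_neg h0, abs_of_nonpos h4] at h1
          omega
        · rw [h0] at h2 ⊢
          simp only [abs_zero, mul_zero] at h2
          have : x i = 0 := abs_nonpos_iff.mp h2
          rw [this]; simp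
        · have h4 : 0 ≤ x i := by
            by_contra hc
            push Not at hc
            have := mul_neg_of_neg_of_pos hc h0
            omega
          rw [Int.sign_eq_one_of_pos h0]
          rw [abs_of_pos h0, abs_of_nonneg h4] at h1
          omega
      have h5 : ∑ i, x i • v i = ∑ i, z i • v i
          + ∑ i, (((x i).natAbs - (z i).natAbs : ℕ) : ℤ) • ((z i).sign • v i) := by
        rw [← Finset.sum_add_distrib]
        apply Finset.sum_congr rfl
        intro i _
        conv_lhs => rw [key i]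
        rw [add_smul, smul_smul, mul_comm]
      rw [h5, sum_e (fun i => (((x i).natAbs - (z i).natAbs : ℕ) : ℤ) • ((z i).sign • v i))
        (fun i hi => by rw [hi]; simp)]
      congr 1
      apply Finset.sum_congr rfl
      intro j _
      rw [natCast_zsmul]

theorem final {Z : Type*} [AddCommGroup Z] [DecidableEq Z] (n : ℕ)
    (D S : Finset (Fin n → ℤ)) (hD : BoxAnchored D) (hSD : S ⊆ D) (v : Fin n → Z)
    (hinj : Set.InjOn (fun x : Fin n → ℤ => ∑ i, x i • v i)
      ((S + S : Finset (Fin n → ℤ)) : Set (Fin n → ℤ)))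
    (A : Finset Z) (t₀ : Z) (hA : ∀ x ∈ S, t₀ + ∑ i, x i • v i ∈ A) (hne : A.Nonempty)
    (K L M : ℝ) (hK : ((A + A).card : ℝ) ≤ K * A.card) (hM : (A.card : ℝ) ≤ M * S.card)
    (hL : (D.card : ℝ) ≤ L * S.card) :
    ∃ (a : Z) (d : ℕ) (w : Fin d → Z) (N : Fin d → ℕ) (B T : Finset Z),
      (∀ i, 2 ≤ N i) ∧ (2 : ℝ) ^ d ≤ (4 * K * L * M) ^ 2 ∧
      ((∏ i, N i : ℕ) : ℝ) ≤ L * A.card ∧
      B ⊆ A ∧ (A.card : ℝ) ≤ 32 * M * (4 * K * L * M) ^ 17 * B.card ∧
      (∀ x ∈ B, ∃ m : Fin d → ℕ, (∀ i, m i < N i) ∧ x = a + ∑ i, m i • w i) ∧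
      (T.card : ℝ) ≤ 32 * K * M * (4 * K * L * M) ^ 17 ∧
      ∀ x ∈ A, ∃ t ∈ T, ∃ c : Fin d → ℤ, (∀ i, |c i| < N i) ∧ x = t + ∑ i, c i • w i := by
  classical
  set ψ : (Fin n → ℤ) → Z := fun x => ∑ i, x i • v i with hψ
  have hadd : ∀ x y, ψ (x + y) = ψ x + ψ y := by
    intro x y
    simp only [hψ, Pi.add_apply, add_smul, Finset.sum_add_distrib]
  have hinjS : Set.InjOn ψ (S : Set (Fin n → ℤ)) := by
    intro x hx y hy hxy
    have h1 : x + x = x + y := by
      apply hinj
      · exact Finset.mem_coe.mpr (Finset.add_mem_add (Finset.mem_coe.mp hx) (Finset.mem_coe.mp hx))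
      · exact Finset.mem_coe.mpr (Finset.add_mem_add (Finset.mem_coe.mp hx) (Finset.mem_coe.mp hy))
      · show ψ (x + x) = ψ (x + y)
        rw [hadd, hadd, hxy]
    exact add_left_cancel h1
  have hApos : (0 : ℝ) < A.card := by exact_mod_cast Finset.card_pos.mpr hne
  have hSne : S.Nonempty := by
    rw [← Finset.card_pos]
    by_contra hc
    have h0 : S.card = 0 := by omega
    rw [h0, Nat.cast_zero, mul_zero] at hM
    linarith
  have hSpos : (0 : ℝ) < S.card := by exact_mod_cast Finset.card_pos.mpr hSne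
  have hinjt : Set.InjOn (fun x => t₀ + ψ x) (S : Set (Fin n → ℤ)) := by
    intro x hx y hy hxy
    exact hinjS hx hy (add_left_cancel hxy)
  have hSA : (S.card : ℝ) ≤ A.card := by
    have : S.card ≤ A.card := Finset.card_le_card_of_injOn (fun x => t₀ + ψ x)
      (fun x hx => hA x hx) hinjt
    exact_mod_cast this
  have hSS : ((S + S).card : ℝ) ≤ ((A + A).card : ℝ) := by
    have : (S + S).card ≤ (A + A).card := by
      apply Finset.card_le_card_of_injOn (fun x => (t₀ + t₀) + ψ x)
      · intro u hu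
        obtain ⟨x, hx, y, hy, rfl⟩ := Finset.mem_add.mp (Finset.mem_coe.mp hu)
        have h1 := Finset.add_mem_add (hA x hx) (hA y hy)
        have h2 : t₀ + ψ x + (t₀ + ψ y) = (t₀ + t₀) + ψ (x + y) := by rw [hadd]; abel
        show (t₀ + t₀) + ψ (x + y) ∈ A + A
        rw [← h2]
        exact h1
      · intro x hx y hy hxy
        exact hinj hx hy (add_left_cancel hxy)
    exact_mod_cast this
  have hK1 : 1 ≤ K := by
    have h1 : (A.card : ℝ) ≤ ((A + A).card : ℝ) := by
      exact_mod_cast Finset.card_le_card_add_right hne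
    by_contra hc
    push Not at hc
    nlinarith
  have hK0 : 0 ≤ K := by linarith
  have hM0 : 0 ≤ M := by
    by_contra hc
    push Not at hc
    nlinarith
  have hL0 : 0 ≤ L := by
    by_contra hc
    push Not at hc
    have : (0 : ℝ) ≤ D.card := Nat.cast_nonneg _
    nlinarith
  have hK' : ((S + S).card : ℝ) ≤ (K * M) * S.card := by
    calc _ ≤ _ := hSS
      _ ≤ _ := hK
      _ ≤ K * (M * S.card) := mul_le_mul_of_nonneg_left hM hK0
      _ = _ := by ring
  obtain ⟨z, hz, hrank, hbig⟩ := box_dense S D (K * M) L hSne hSD hD hL hK'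
  have hQ : 4 * (K * M) * L = 4 * K * L * M := by ring
  rw [hQ] at hrank hbig
  obtain ⟨w, N, hN2, hNp, hprog⟩ := to_prog v z
  set S0 := S.filter (fun x => R x z) with hS0
  set B := S0.image (fun x => t₀ + ψ x) with hB
  have hBc : B.card = S0.card :=
    Finset.card_image_of_injOn (hinjt.mono (by exact_mod_cast Finset.filter_subset _ _))
  have hBA : B ⊆ A := by
    intro x hx
    obtain ⟨y, hy, rfl⟩ := Finset.mem_image.mp hx
    exact hA y (Finset.mem_filter.mp hy).1
  have hsize : (A.card : ℝ) ≤ 32 * M * (4 * K * L * M) ^ 17 * B.card := by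
    calc (A.card : ℝ) ≤ M * S.card := hM
      _ ≤ M * (32 * (4 * K * L * M) ^ 17 * S0.card) := mul_le_mul_of_nonneg_left hbig hM0
      _ = _ := by rw [hBc]; ring
  have hBne : B.Nonempty := by
    rw [← Finset.card_pos]
    by_contra hc
    have : B.card = 0 := by omega
    rw [this, Nat.cast_zero, mul_zero] at hsize
    linarith
  have hBprog : ∀ x ∈ B, ∃ m : Fin (nzZ z) → ℕ, (∀ i, m i < N i) ∧
      x = (t₀ + ∑ i, z i • v i) + ∑ i, m i • w i := by
    intro x hx
    obtain ⟨y, hy, rfl⟩ := Finset.mem_image.mp hx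
    obtain ⟨m, hm, e⟩ := hprog y (Finset.mem_filter.mp hy).2
    refine ⟨m, hm, ?_⟩
    show t₀ + ∑ i, y i • v i = _
    rw [e, add_assoc]
  have hcov : ((A + B).card : ℝ) ≤ 32 * K * M * (4 * K * L * M) ^ 17 * B.card := by
    calc ((A + B).card : ℝ) ≤ ((A + A).card : ℝ) := by
          exact_mod_cast Finset.card_le_card (Finset.add_subset_add_left hBA)
      _ ≤ K * A.card := hK
      _ ≤ K * (32 * M * (4 * K * L * M) ^ 17 * B.card) := mul_le_mul_of_nonneg_left hsize hK0
      _ = _ := by ring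
  obtain ⟨T, _, hT, hAT⟩ := Finset.ruzsa_covering_add hBne hcov
  refine ⟨t₀ + ∑ i, z i • v i, nzZ z, w, N, B, T, hN2, hrank, ?_, hBA, hsize, hBprog, hT, ?_⟩
  · refine le_trans ?_ (mul_le_mul_of_nonneg_left hSA hL0)
    refine le_trans ?_ hL
    rw [hNp]
    exact_mod_cast box_card D hD z hz
  · intro x hx
    obtain ⟨t, ht, b, hb, rfl⟩ := Finset.mem_add.mp (hAT hx)
    obtain ⟨b1, hb1, b2, hb2, rfl⟩ := Finset.mem_sub.mp hb
    obtain ⟨m1, hm1, e1⟩ := hBprog b1 hb1
    obtain ⟨m2, hm2, e2⟩ := hBprog b2 hb2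
    refine ⟨t, ht, fun i => (m1 i : ℤ) - m2 i, ?_, ?_⟩
    · intro i
      have h1 := hm1 i
      have h2 := hm2 i
      show |(m1 i : ℤ) - m2 i| < (N i : ℤ)
      rw [abs_lt]
      constructor <;> omega
    · rw [e1, e2]
      have : ∑ i, ((m1 i : ℤ) - m2 i) • w i = ∑ i, m1 i • w i - ∑ i, m2 i • w i := by
        rw [← Finset.sum_sub_distrib]
        apply Finset.sum_congr rfl
        intro i _
        rw [sub_smul, natCast_zsmul, natCast_zsmul]
      rw [this]
      abel

end Pool.Agent.TH651.DB
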