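import Pool.Agent.TH651.DB.Box

set_option autoImplicit false
open Finset
open scoped Pointwise

namespace Pool.Agent.TH651.DB

open H947DS

theorem nz_mono {n : ℕ} (x z : Fin n → ℤ) (h : R x z) : nzZ z ≤ nzZ x := by
  unfold nzZ
  apply Finset.card_le_card
  intro i hi
  rw [Finset.mem_filter] at hi ⊢
  refine ⟨hi.1, fun h0 => hi.2 ?_⟩
  have := (h i).1
  rw [h0, abs_zero] at this
  exact abs_nonpos_iff.mp this

/-- the main result in `ℤ^n` -/
theorem box_dense {n : ℕ} (S D : Finset (Fin n → ℤ)) (K L : ℝ) (hS : S.Nonempty) (hSD : S ⊆ D)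
    (hD : BoxAnchored D) (hL : (D.card : ℝ) ≤ L * S.card)
    (hK : ((S + S).card : ℝ) ≤ K * S.card) :
    ∃ z ∈ D, (2 : ℝ) ^ (nzZ z) ≤ (4 * K * L) ^ 2 ∧
      (S.card : ℝ) ≤ 32 * (4 * K * L) ^ 17 * ((S.filter (fun x => R x z)).card : ℝ) := by
  have hs : (0 : ℝ) < (S.card : ℝ) := by exact_mod_cast Finset.card_pos.mpr hS
  have hK1 : 1 ≤ K := by
    have h1 : (S.card : ℝ) ≤ ((S + S).card : ℝ) := by
      exact_mod_cast Finset.card_le_card_add_right hS
    by_contra hc
    push Not at hc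
    nlinarith
  have hL1 : 1 ≤ L := by
    have h1 : (S.card : ℝ) ≤ (D.card : ℝ) := by exact_mod_cast Finset.card_le_card hSD
    by_contra hc
    push Not at hc
    nlinarith
  set s : ℝ := (S.card : ℝ) with hsdef
  set Q : ℝ := 4 * K * L with hQ
  have hKL : 1 ≤ K * L := by nlinarith
  have hQ4 : 4 ≤ Q := by rw [hQ]; nlinarith
  have hzc := zc_of_ba D hD
  -- step 1: the rank inequality
  have hwt : wt S ^ 2 ≤ K * L * s ^ 2 := by
    have h1 := rank_ineq n S D S D hS hS hSD hSD hzc hzc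
    have h2 : (wt S * wt S) ^ 2 ≤ (((S + S).card : ℝ) * D.card) ^ 2 := by
      calc _ ≤ _ := h1
        _ = _ := by ring
    have h3 := (abs_le_of_sq_le_sq' h2 (by positivity)).2
    have h4 : ((S + S).card : ℝ) * D.card ≤ (K * s) * (L * s) :=
      mul_le_mul hK hL (Nat.cast_nonneg _) (by positivity)
    nlinarith
  have hwtp := wt_pos S hS
  set S4 := S.filter (fun x => (3 / 2 : ℝ) ^ (nzZ x) ≤ Q) with hS4
  set S4' := S.filter (fun x => ¬ (3 / 2 : ℝ) ^ (nzZ x) ≤ Q) with hS4'
  have hsplit : (S4.card : ℝ) + S4'.card = s := by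
    have := Finset.card_filter_add_card_filter_not (s := S) (fun x => (3 / 2 : ℝ) ^ (nzZ x) ≤ Q)
    rw [hsdef, ← this]
    push_cast
    rfl
  have hS4half : s ≤ 2 * S4.card := by
    set q := Real.sqrt Q with hq
    have hq2 : q ^ 2 = Q := Real.sq_sqrt (by linarith)
    have hq0 : 0 ≤ q := Real.sqrt_nonneg _
    have h1 : (S4'.card : ℝ) * q ≤ wt S := by
      calc (S4'.card : ℝ) * q ≤ ∑ x ∈ S4', lam ^ (nzZ x) := by
            rw [← nsmul_eq_mul]
            apply Finset.card_nsmul_le_sum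
            intro x hx
            have h2 := (Finset.mem_filter.mp hx).2
            push Not at h2
            have h3 : q ^ 2 ≤ (lam ^ (nzZ x)) ^ 2 := by
              rw [hq2, ← pow_mul, mul_comm, pow_mul, lam_sq]
              exact h2.le
            exact (abs_le_of_sq_le_sq' h3 (pow_nonneg lam_pos.le _)).2
        _ ≤ wt S := Finset.sum_le_sum_of_subset_of_nonneg (Finset.filter_subset _ _)
            (fun _ _ _ => pow_nonneg lam_pos.le _)
    have h2 : ((S4'.card : ℝ) * q) ^ 2 ≤ K * L * s ^ 2 :=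
      (pow_le_pow_left₀ (by positivity) h1 2).trans hwt
    rw [mul_pow, hq2, hQ] at h2
    have h3 : (2 * (S4'.card : ℝ)) ^ 2 ≤ s ^ 2 := by
      have h4 : K * L * (2 * (S4'.card : ℝ)) ^ 2 ≤ K * L * s ^ 2 := by
        calc _ = (S4'.card : ℝ) ^ 2 * (4 * K * L) := by ring
          _ ≤ _ := h2
      exact le_of_mul_le_mul_left h4 (by linarith)
    have h4 := (abs_le_of_sq_le_sq' h3 hs.le).2
    linarith
  have hS4ne : S4.Nonempty := by
    rw [← Finset.card_pos]
    have : (0 : ℝ) < S4.card := by linarith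
    exact_mod_cast this
  obtain ⟨xr, hxr, hmax⟩ := Finset.exists_max_image S4 nzZ hS4ne
  set r := nzZ xr with hr
  have hr32 : (3 / 2 : ℝ) ^ r ≤ Q := (Finset.mem_filter.mp hxr).2
  have h2r : (2 : ℝ) ^ r ≤ Q ^ 2 := by
    calc (2 : ℝ) ^ r ≤ ((3 / 2 : ℝ) ^ 2) ^ r := pow_le_pow_left₀ (by norm_num) (by norm_num) r
      _ = ((3 / 2 : ℝ) ^ r) ^ 2 := by rw [← pow_mul, ← pow_mul, mul_comm]
      _ ≤ _ := pow_le_pow_left₀ (by positivity) hr32 2
  -- step 2: one orthant
  obtain ⟨σ, hσ, hcard⟩ := ORTH_proof n r S4 hmax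
  set S5 := S4.filter (fun x => ∀ i, 0 ≤ σ i * x i) with hS5
  have hp2 : (0 : ℝ) < 2 ^ r := by positivity
  have hs5 : s ≤ 2 * (2 ^ r * S5.card) := by
    have : (S4.card : ℝ) ≤ 2 ^ r * S5.card := by exact_mod_cast hcard
    linarith
  have hS5sub : S5 ⊆ S := (Finset.filter_subset _ _).trans (Finset.filter_subset _ _)
  -- step 3: large boxes
  set θ : ℝ := s / (32 * 64 ^ r * K) with hθ
  have hθpos : 0 < θ := by rw [hθ]; positivity
  set B1 := S5.filter (fun x => ∏ i, (|(x i : ℝ)| + 1) < θ) with hB1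
  set S6 := S5.filter (fun x => ¬ ∏ i, (|(x i : ℝ)| + 1) < θ) with hS6
  have hB1S : B1 ⊆ S := (Finset.filter_subset _ _).trans hS5sub
  have hsplit2 : (B1.card : ℝ) + S6.card = S5.card := by
    have := Finset.card_filter_add_card_filter_not (s := S5)
      (fun x => ∏ i, (|(x i : ℝ)| + 1) < θ)
    rw [← this]
    push_cast
    rfl
  have hB1size : (B1.card : ℝ) ^ 2 * (32 * 4 ^ r) ≤ s ^ 2 := by
    have h1 := size B1 σ hσ (fun x hx => (Finset.mem_filter.mp (Finset.mem_filter.mp hx).1).2) r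
      (fun x hx => hmax x (Finset.mem_filter.mp (Finset.mem_filter.mp hx).1).1) θ hθpos.le
      (fun x hx => (Finset.mem_filter.mp hx).2.le)
    have h2 : ((B1 + B1).card : ℝ) ≤ K * s := by
      refine le_trans ?_ hK
      exact_mod_cast Finset.card_le_card (Finset.add_subset_add hB1S hB1S)
    have h3 : (B1.card : ℝ) ^ 2 ≤ 16 ^ r * (K * s) * θ := by
      refine h1.trans ?_
      apply mul_le_mul_of_nonneg_right _ hθpos.le
      exact mul_le_mul_of_nonneg_left h2 (by positivity)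
    have h4 : (16 : ℝ) ^ r * (K * s) * θ * (32 * 4 ^ r) = s ^ 2 := by
      rw [hθ]
      have h64 : (64 : ℝ) ^ r = 16 ^ r * 4 ^ r := by rw [← mul_pow]; norm_num
      have : K ≠ 0 := by positivity
      rw [h64]
      field_simp
    calc _ ≤ (16 ^ r * (K * s) * θ) * (32 * 4 ^ r) :=
          mul_le_mul_of_nonneg_right h3 (by positivity)
      _ = _ := h4
  have hB1half : 2 * (B1.card : ℝ) ≤ S5.card := by
    by_contra hc
    push Not at hc
    have h1 : s < 4 * (2 ^ r * B1.card) := by nlinarith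
    have h2 : s ^ 2 < (4 * (2 ^ r * B1.card)) ^ 2 := pow_lt_pow_left₀ h1 hs.le (by norm_num)
    have h3 : (4 * (2 ^ r * (B1.card : ℝ))) ^ 2 = (B1.card : ℝ) ^ 2 * (16 * 4 ^ r) := by
      have : (4 : ℝ) ^ r = (2 ^ r) ^ 2 := by rw [← pow_mul, mul_comm, pow_mul]; norm_num
      rw [this]; ring
    rw [h3] at h2
    have h4 : (0 : ℝ) ≤ (B1.card : ℝ) ^ 2 * 4 ^ r := by positivity
    nlinarith
  have hS6card : s ≤ 4 * (2 ^ r * S6.card) := by
    have h1 : (S5.card : ℝ) ≤ 2 * S6.card := by linarith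
    have h2 : 2 ^ r * (S5.card : ℝ) ≤ 2 ^ r * (2 * S6.card) :=
      mul_le_mul_of_nonneg_left h1 hp2.le
    linarith
  -- step 4: double counting
  have hS6S : S6 ⊆ S := (Finset.filter_subset _ _).trans hS5sub
  have hcount : ∀ x ∈ S6, θ ≤ 2 ^ r * ((D.filter (fun z => R x z)).card : ℝ) := by
    intro x hx
    have h1 := (Finset.mem_filter.mp hx).2
    push Not at h1
    have h2 := count D hD x (hSD (hS6S hx))
    have h3 : nzZ x ≤ r := hmax x (Finset.mem_filter.mp (Finset.mem_filter.mp hx).1).1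
    calc θ ≤ _ := h1
      _ ≤ _ := h2
      _ ≤ _ := mul_le_mul_of_nonneg_right (pow_le_pow_right₀ (by norm_num) h3) (Nat.cast_nonneg _)
  have hDne : D.Nonempty := hS.mono hSD
  obtain ⟨z, hz, hzmax⟩ := Finset.exists_max_image D
    (fun z => (S6.filter (fun x => R x z)).card) hDne
  have hdc : ∑ x ∈ S6, ((D.filter (fun z => R x z)).card : ℝ)
      = ∑ z ∈ D, ((S6.filter (fun x => R x z)).card : ℝ) := by
    have := Finset.sum_card_bipartiteAbove_eq_sum_card_bipartiteBelow (s := S6) (t := D)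
      (fun x z => R x z)
    unfold Finset.bipartiteAbove Finset.bipartiteBelow at this
    exact_mod_cast this
  set M : ℝ := ((S6.filter (fun x => R x z)).card : ℝ) with hM
  have h5 : (S6.card : ℝ) * θ ≤ 2 ^ r * (L * s * M) := by
    calc (S6.card : ℝ) * θ = ∑ _x ∈ S6, θ := by rw [Finset.sum_const, nsmul_eq_mul]
      _ ≤ ∑ x ∈ S6, 2 ^ r * ((D.filter (fun z => R x z)).card : ℝ) := Finset.sum_le_sum hcount
      _ = 2 ^ r * ∑ z ∈ D, ((S6.filter (fun x => R x z)).card : ℝ) := by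
          rw [← Finset.mul_sum, hdc]
      _ ≤ 2 ^ r * (D.card * M) := by
          apply mul_le_mul_of_nonneg_left _ hp2.le
          rw [← nsmul_eq_mul]
          apply Finset.sum_le_card_nsmul
          intro w hw
          rw [hM]
          exact_mod_cast hzmax w hw
      _ ≤ _ := by
          apply mul_le_mul_of_nonneg_left _ hp2.le
          exact mul_le_mul_of_nonneg_right hL (Nat.cast_nonneg _)
  have h6 : (S6.card : ℝ) ≤ 8 * 128 ^ r * Q * M := by
    have hK0 : K ≠ 0 := by positivity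
    have h7 : (S6.card : ℝ) * θ * (32 * 64 ^ r * K) = S6.card * s := by
      rw [hθ]; field_simp
    have h8 : (S6.card : ℝ) * s ≤ (8 * 128 ^ r * Q * M) * s := by
      rw [← h7]
      calc _ ≤ 2 ^ r * (L * s * M) * (32 * 64 ^ r * K) :=
            mul_le_mul_of_nonneg_right h5 (by positivity)
        _ = _ := by
            have : (128 : ℝ) ^ r = 2 ^ r * 64 ^ r := by rw [← mul_pow]; norm_num
            rw [this, hQ]; ring
    exact le_of_mul_le_mul_right h8 hs
  have hM0 : 0 ≤ M := Nat.cast_nonneg _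
  have h7 : s ≤ 32 * Q ^ 17 * M := by
    calc s ≤ 4 * (2 ^ r * S6.card) := hS6card
      _ ≤ 4 * (2 ^ r * (8 * 128 ^ r * Q * M)) := by
          apply mul_le_mul_of_nonneg_left _ (by norm_num)
          exact mul_le_mul_of_nonneg_left h6 hp2.le
      _ = 32 * ((2 ^ r) ^ 8 * Q) * M := by
          have : (128 : ℝ) ^ r = (2 ^ r) ^ 7 := by rw [← pow_mul, mul_comm, pow_mul]; norm_num
          rw [this]; ring
      _ ≤ 32 * ((Q ^ 2) ^ 8 * Q) * M := by
          apply mul_le_mul_of_nonneg_right _ hM0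
          apply mul_le_mul_of_nonneg_left _ (by norm_num)
          apply mul_le_mul_of_nonneg_right _ (by linarith)
          exact pow_le_pow_left₀ hp2.le h2r 8
      _ = _ := by ring
  have hMpos : 0 < M := by
    rcases eq_or_lt_of_le hM0 with h | h
    · rw [← h, mul_zero] at h7; linarith
    · exact h
  refine ⟨z, hz, ?_, ?_⟩
  · have h8 : (S6.filter (fun x => R x z)).Nonempty := by
      rw [← Finset.card_pos]
      rw [hM] at hMpos
      exact_mod_cast hMpos
    obtain ⟨x, hx⟩ := h8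
    have h9 := (Finset.mem_filter.mp hx).2
    have h10 := (Finset.mem_filter.mp hx).1
    have h3 : nzZ x ≤ r := hmax x (Finset.mem_filter.mp (Finset.mem_filter.mp h10).1).1
    calc (2 : ℝ) ^ (nzZ z) ≤ 2 ^ r := pow_le_pow_right₀ (by norm_num) ((nz_mono x z h9).trans h3)
      _ ≤ _ := h2r
  · refine h7.trans ?_
    apply mul_le_mul_of_nonneg_left _ (by positivity)
    rw [hM]
    exact_mod_cast Finset.card_le_card (Finset.filter_subset_filter _ hS6S)

end Pool.Agent.TH651.DB
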