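import Pool.Agent.TH651.DB.Final

set_option autoImplicit false
open Finset
open scoped Pointwise

namespace Pool.Agent.TH651.DB

/-- an interval `[-N, N]` is covered by few translates of `[-R, R]` -/
theorem cover_one (N R : ℕ) (h : R ≤ N) : ∃ X : Finset ℤ, X.card * (2 * R + 1) ≤ 2 * (2 * N + 1) ∧
    ∀ c : ℤ, |c| ≤ N → ∃ x ∈ X, |c - x| ≤ R := by
  classical
  refine ⟨(Finset.range ((2 * N + 1) / (2 * R + 1) + 1)).image
    (fun j : ℕ => -(N : ℤ) + R + (j : ℤ) * (2 * R + 1)), ?_, ?_⟩
  · have h1 : ((Finset.range ((2 * N + 1) / (2 * R + 1) + 1)).image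
        (fun j : ℕ => -(N : ℤ) + R + (j : ℤ) * (2 * R + 1))).card
        ≤ (2 * N + 1) / (2 * R + 1) + 1 := Finset.card_image_le.trans (by simp)
    calc _ ≤ ((2 * N + 1) / (2 * R + 1) + 1) * (2 * R + 1) := Nat.mul_le_mul_right _ h1
      _ = (2 * N + 1) / (2 * R + 1) * (2 * R + 1) + (2 * R + 1) := by ring
      _ ≤ (2 * N + 1) + (2 * R + 1) := Nat.add_le_add_right (Nat.div_mul_le_self _ _) _
      _ ≤ _ := by omega
  · intro c hc
    rw [abs_le] at hc
    set q : ℤ := (c + N) / (2 * R + 1) with hq
    have hm : (0 : ℤ) < 2 * R + 1 := by positivity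
    have h1 : (2 * (R : ℤ) + 1) * q ≤ c + N := Int.mul_ediv_self_le hm.ne'
    have h2 : c + N < (2 * (R : ℤ) + 1) * q + (2 * R + 1) := Int.lt_mul_ediv_self_add hm
    have h3 : 0 ≤ q := Int.ediv_nonneg (by omega) hm.le
    obtain ⟨j, hj⟩ := Int.eq_ofNat_of_zero_le h3
    rw [hj] at h1 h2
    refine ⟨-(N : ℤ) + R + (j : ℤ) * (2 * R + 1), ?_, ?_⟩
    · refine Finset.mem_image.mpr ⟨j, ?_, rfl⟩
      rw [Finset.mem_range, Nat.lt_succ_iff, Nat.le_div_iff_mul_le (by omega)]
      have h4 : (2 * (R : ℤ) + 1) * j ≤ 2 * N + 1 := by linarith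
      have h5 : (j : ℤ) * (2 * R + 1) ≤ 2 * N + 1 := by linarith
      exact_mod_cast h5
    · rw [abs_le]
      constructor <;> linarith

/-- any box can be shrunk to a prescribed volume at the right price -/
theorem shrink (V : ℕ) (hV : 1 ≤ V) : ∀ (d : ℕ) (N : Fin d → ℕ), ∃ R : Fin d → ℕ,
    (∀ i, R i ≤ N i) ∧ ∏ i, (2 * R i + 1) ≤ V ∧
    ∃ X : Finset (Fin d → ℤ), X.card * V ≤ 6 * max V (∏ i, (2 * N i + 1)) ∧
      ∀ c : Fin d → ℤ, (∀ i, |c i| ≤ N i) → ∃ x ∈ X, ∀ i, |c i - x i| ≤ R i := by
  classical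
  intro d
  induction d with
  | zero =>
    intro N
    refine ⟨N, fun i => i.elim0, by simpa using hV, {0}, ?_, ?_⟩
    · simp only [Finset.card_singleton, one_mul]
      have := le_max_left V (∏ i, (2 * N i + 1))
      omega
    · intro c _
      exact ⟨0, Finset.mem_singleton_self _, fun i => i.elim0⟩
  | succ d ih =>
    intro N
    set N' : Fin d → ℕ := fun i => N i.succ with hN'
    set W : ℕ := ∏ i, (2 * N' i + 1) with hW
    have hprod : ∏ i, (2 * N i + 1) = (2 * N 0 + 1) * W := by
      rw [Fin.prod_univ_succ]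
    have hW1 : 1 ≤ W := by
      rw [hW]
      exact Nat.succ_le_of_lt (Finset.prod_pos (fun i _ => Nat.succ_pos _))
    by_cases hc : V ≤ W
    · obtain ⟨R', hR'N, hR'V, X', hX', hcov'⟩ := ih N'
      obtain ⟨X0, hX0, hcov0⟩ := cover_one (N 0) 0 (Nat.zero_le _)
      refine ⟨Fin.cons 0 R', ?_, ?_, (Finset.Icc (-(N 0 : ℤ)) (N 0) ×ˢ X').image
        (fun p => Fin.cons p.1 p.2), ?_, ?_⟩
      · intro i
        refine Fin.cases ?_ (fun j => ?_) i
        · simp
        · simpa using hR'N j
      · rw [Fin.prod_univ_succ]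
        simpa using hR'V
      · have h1 : ((Finset.Icc (-(N 0 : ℤ)) (N 0) ×ˢ X').image
            (fun p => (Fin.cons p.1 p.2 : Fin (d + 1) → ℤ))).card ≤ (2 * N 0 + 1) * X'.card := by
          refine Finset.card_image_le.trans ?_
          rw [Finset.card_product, Int.card_Icc]
          apply Nat.mul_le_mul_right
          omega
        rw [max_eq_right hc] at hX'
        have h2 : V ≤ (2 * N 0 + 1) * W := hc.trans (Nat.le_mul_of_pos_left _ (by omega))
        rw [hprod, max_eq_right h2]
        calc _ ≤ ((2 * N 0 + 1) * X'.card) * V := Nat.mul_le_mul_right _ h1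
          _ = (2 * N 0 + 1) * (X'.card * V) := by ring
          _ ≤ (2 * N 0 + 1) * (6 * W) := Nat.mul_le_mul_left _ hX'
          _ = _ := by ring
      · intro c hcN
        obtain ⟨x', hx', hxc⟩ := hcov' (fun i => c i.succ) (fun i => hcN i.succ)
        refine ⟨Fin.cons (c 0) x', Finset.mem_image.mpr ⟨(c 0, x'), ?_, rfl⟩, ?_⟩
        · rw [Finset.mem_product, Finset.mem_Icc]
          have := hcN 0
          rw [abs_le] at this
          exact ⟨this, hx'⟩
        · intro i
          refine Fin.cases ?_ (fun j => ?_) i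
          · simp
          · simpa using hxc j
    · push Not at hc
      -- shrink only the first coordinate
      set R0 : ℕ := min (N 0) ((V / W - 1) / 2) with hR0
      have hVW : 1 ≤ V / W := by
        rw [Nat.le_div_iff_mul_le (by omega)]
        omega
      obtain ⟨X0, hX0, hcov0⟩ := cover_one (N 0) R0 (min_le_left _ _)
      have hR0V : (2 * R0 + 1) * W ≤ V := by
        have h1 : 2 * R0 + 1 ≤ V / W := by
          have := min_le_right (N 0) ((V / W - 1) / 2)
          omega
        exact (Nat.mul_le_mul_right _ h1).trans (Nat.div_mul_le_self _ _)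
      by_cases hN0 : R0 = N 0
      · refine ⟨N, fun i => le_refl _, ?_, {0}, ?_, ?_⟩
        · rw [hprod, ← hN0]
          exact hR0V
        · simp only [Finset.card_singleton, one_mul]
          have := le_max_left V (∏ i, (2 * N i + 1))
          omega
        · intro c hcN
          refine ⟨0, Finset.mem_singleton_self _, fun i => ?_⟩
          simpa using hcN i
      · have hlt : (V / W - 1) / 2 < N 0 := by
          by_contra h
          push Not at h
          exact hN0 (min_eq_left h)
        have hR0e : R0 = (V / W - 1) / 2 := min_eq_right hlt.le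
        have hbig : V < (2 * R0 + 3) * W := by
          have h1 : V / W < 2 * R0 + 3 := by omega
          exact (Nat.div_lt_iff_lt_mul (by omega)).mp h1
        refine ⟨Fin.cons R0 N', ?_, ?_, X0.image (fun x => Fin.cons x 0), ?_, ?_⟩
        · intro i
          refine Fin.cases ?_ (fun j => ?_) i
          · simp [hR0]
          · simp [hN']
        · rw [Fin.prod_univ_succ]
          simpa using hR0V
        · have h1 : (X0.image (fun x => (Fin.cons x 0 : Fin (d + 1) → ℤ))).card ≤ X0.card :=
            Finset.card_image_le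
          refine le_trans ?_ (Nat.mul_le_mul_left 6 (le_max_right _ _))
          rw [hprod]
          calc _ ≤ X0.card * ((2 * R0 + 3) * W) := Nat.mul_le_mul h1 hbig.le
            _ ≤ X0.card * ((3 * (2 * R0 + 1)) * W) :=
                Nat.mul_le_mul_left _ (Nat.mul_le_mul_right _ (by omega))
            _ = 3 * (X0.card * (2 * R0 + 1)) * W := by ring
            _ ≤ 3 * (2 * (2 * N 0 + 1)) * W :=
                Nat.mul_le_mul_right _ (Nat.mul_le_mul_left _ hX0)
            _ = _ := by ring
        · intro c hcN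
          obtain ⟨x0, hx0, hxc⟩ := hcov0 (c 0) (hcN 0)
          refine ⟨Fin.cons x0 0, Finset.mem_image.mpr ⟨x0, hx0, rfl⟩, ?_⟩
          intro i
          refine Fin.cases ?_ (fun j => ?_) i
          · simpa using hxc
          · simpa using hcN j.succ

end Pool.Agent.TH651.DB
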